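import Mathlib
import Pool.Agent.KACR.Stmts

/-! Squad KACR, row BCL: the set of the bad levels is closed. -/

namespace Pool.Agent.KACR.H52

open Set

theorem cont_k {L : ℝ} {k : ℝ → ℝ} (h : Gen L k) : Continuous k := h.smooth.continuous

theorem cont_dk {L : ℝ} {k : ℝ → ℝ} (h : Gen L k) : Continuous (deriv k) :=
  h.smooth.continuous_deriv (by exact_mod_cast le_top)

theorem per_k {L : ℝ} {k : ℝ → ℝ} (h : Gen L k) : Function.Periodic k L := h.per

theorem per_dk {L : ℝ} {k : ℝ → ℝ} (h : Gen L k) : Function.Periodic (deriv k) L := by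
  intro s
  have h1 : (fun x => k (x + L)) = k := funext h.per
  have h2 : deriv (fun x => k (x + L)) s = deriv k (s + L) := deriv_comp_add_const k L s
  rw [← h2, h1]

theorem bad_crit {L : ℝ} {k : ℝ → ℝ} (h : Gen L k) {c s : ℝ} (h1 : k s = c) (h2 : deriv k s = 0) :
    c ∈ Bad L k := by
  left
  intro hr
  exact hr s h1 h2

/-- the critical values -/
theorem crit_closed {L : ℝ} {k : ℝ → ℝ} (h : Gen L k) : IsClosed {c | ¬ Reg k c} := by
  have h1 : {c | ¬ Reg k c} = k '' (Icc 0 L ∩ {s | deriv k s = 0}) := by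
    ext c
    constructor
    · intro hc
      have hc' : ¬ ∀ s, k s = c → deriv k s ≠ 0 := hc
      push Not at hc'
      obtain ⟨s, hs1, hs2⟩ := hc'
      obtain ⟨n, hn, _⟩ := existsUnique_add_zsmul_mem_Ico h.pos s 0
      rw [zsmul_eq_mul, zero_add] at hn
      refine ⟨s + n * L, ⟨⟨hn.1, hn.2.le⟩, ?_⟩, ?_⟩
      · show deriv k (s + n * L) = 0
        rw [(per_dk h).int_mul n s, hs2]
      · rw [(per_k h).int_mul n s, hs1]
    · rintro ⟨s, ⟨_, hs2⟩, hs3⟩ hr
      exact hr s hs3 hs2
  rw [h1]
  have h2 : IsCompact (Icc 0 L ∩ {s | deriv k s = 0}) :=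
    isCompact_Icc.inter_right (isClosed_eq (cont_dk h) continuous_const)
  exact (h2.image (cont_k h)).isClosed

/-- the compact set of the quadruples `(s, t, r, r')` -/
def W (L : ℝ) (k : ℝ → ℝ) : Set (ℝ × ℝ × ℝ × ℝ) :=
  (Icc 0 L ×ˢ Icc 0 (2 * L) ×ˢ Icc 0 (2 * L) ×ˢ Icc 0 (2 * L)) ∩
    ({x | x.1 ≤ x.2.2.1} ∩ ({x | x.2.2.1 ≤ x.2.1} ∩ ({x | x.2.1 ≤ x.2.2.2} ∩
      ({x | x.2.2.2 ≤ x.1 + L} ∩ ({x | k x.1 = k x.2.1} ∩
        ({x | deriv k x.1 ^ 2 = deriv k x.2.1 ^ 2} ∩ ({x | deriv k x.2.2.1 = 0} ∩
          {x | deriv k x.2.2.2 = 0})))))))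

theorem W_compact {L : ℝ} {k : ℝ → ℝ} (h : Gen L k) : IsCompact (W L k) := by
  have hk := cont_k h
  have hd := cont_dk h
  refine IsCompact.inter_right (isCompact_Icc.prod (isCompact_Icc.prod
    (isCompact_Icc.prod isCompact_Icc))) ?_
  refine IsClosed.inter (isClosed_le (by fun_prop) (by fun_prop)) ?_
  refine IsClosed.inter (isClosed_le (by fun_prop) (by fun_prop)) ?_
  refine IsClosed.inter (isClosed_le (by fun_prop) (by fun_prop)) ?_
  refine IsClosed.inter (isClosed_le (by fun_prop) (by fun_prop)) ?_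
  refine IsClosed.inter (isClosed_eq (by fun_prop) (by fun_prop)) ?_
  refine IsClosed.inter (isClosed_eq (by fun_prop) (by fun_prop)) ?_
  exact IsClosed.inter (isClosed_eq (by fun_prop) (by fun_prop))
    (isClosed_eq (by fun_prop) (by fun_prop))

theorem bcl : BclStmt := by
  intro L k h
  have hL := h.pos
  have h1 : Bad L k = {c | ¬ Reg k c} ∪ (fun x : ℝ × ℝ × ℝ × ℝ => k x.1) '' W L k := by
    ext c
    constructor
    · rintro (hc | ⟨s, t, hne, hs, ht, hst⟩)
      · exact Or.inl hc
      · right
        obtain ⟨m, hm, _⟩ := existsUnique_add_zsmul_mem_Ico hL s 0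
        rw [zsmul_eq_mul, zero_add] at hm
        obtain ⟨n, hn, _⟩ := existsUnique_add_zsmul_mem_Ico hL t (s + m * L)
        rw [zsmul_eq_mul] at hn
        have hks : k (s + m * L) = c := by rw [(per_k h).int_mul m s, hs]
        have hkt : k (t + n * L) = c := by rw [(per_k h).int_mul n t, ht]
        have hne' : s + m * L ≠ t + n * L := by
          intro he
          apply hne
          refine ⟨m - n, ?_⟩
          push_cast
          linarith
        have hlt : s + m * L < t + n * L := lt_of_le_of_ne hn.1 hne'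
        obtain ⟨r, hr, hr0⟩ := exists_deriv_eq_zero hlt (cont_k h).continuousOn
          (by rw [hks, hkt])
        obtain ⟨r', hr', hr0'⟩ := exists_deriv_eq_zero hn.2 (cont_k h).continuousOn
          (by rw [hkt, h.per, hks])
        refine ⟨(s + m * L, t + n * L, r, r'), ⟨⟨⟨hm.1, hm.2.le⟩, ⟨?_, ?_⟩, ⟨?_, ?_⟩, ⟨?_, ?_⟩⟩,
          hr.1.le, hr.2.le, hr'.1.le, hr'.2.le, ?_, ?_, hr0, hr0'⟩, hks⟩
        · show 0 ≤ t + n * L
          linarith [hm.1]
        · show t + n * L ≤ 2 * L
          linarith [hm.2, hn.2]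
        · show 0 ≤ r
          linarith [hm.1, hr.1]
        · show r ≤ 2 * L
          linarith [hm.2, hn.2, hr.2]
        · show 0 ≤ r'
          linarith [hm.1, hr'.1]
        · show r' ≤ 2 * L
          linarith [hm.2, hr'.2]
        · show k (s + m * L) = k (t + n * L)
          rw [hks, hkt]
        · show deriv k (s + m * L) ^ 2 = deriv k (t + n * L) ^ 2
          rw [(per_dk h).int_mul m s, (per_dk h).int_mul n t, hst]
    · rintro (hc | ⟨⟨s, t, r, r'⟩, ⟨_, h1, h2, h3, h4, h5, h6, h7, h8⟩, hc⟩)
      · exact Or.inl hc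
      · have h1' : s ≤ r := h1
        have h2' : r ≤ t := h2
        have h3' : t ≤ r' := h3
        have h4' : r' ≤ s + L := h4
        have h5' : k s = k t := h5
        have h6' : deriv k s ^ 2 = deriv k t ^ 2 := h6
        have h7' : deriv k r = 0 := h7
        have h8' : deriv k r' = 0 := h8
        have hc' : k s = c := hc
        by_cases e1 : s = t
        · have e2 : r = s := le_antisymm (h2'.trans e1.ge) h1'
          rw [e2] at h7'
          exact bad_crit h hc' h7'
        · by_cases e3 : t = s + L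
          · have e4 : r' = s + L := le_antisymm h4' (by rw [← e3]; exact h3')
            rw [e4, per_dk h s] at h8'
            exact bad_crit h hc' h8'
          · right
            refine ⟨s, t, ?_, hc', by rw [← h5', hc'], h6'⟩
            rintro ⟨n, hn⟩
            have hst : s < t := lt_of_le_of_ne (h1'.trans h2') e1
            have hts : t < s + L := lt_of_le_of_ne (h3'.trans h4') e3
            have h9 : 0 < (n : ℝ) * L := by linarith
            have h10 : (n : ℝ) * L < 1 * L := by linarith
            have h11 : (n : ℝ) < 1 := lt_of_mul_lt_mul_right h10 hL.le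
            have h12 : (0 : ℝ) < n := by
              by_contra hcon
              push Not at hcon
              have := mul_nonpos_of_nonpos_of_nonneg hcon hL.le
              linarith
            have h13 : n < 1 := by exact_mod_cast h11
            have h14 : 0 < n := by exact_mod_cast h12
            omega
  rw [h1]
  exact (crit_closed h).union ((W_compact h).image
    ((cont_k h).comp continuous_fst)).isClosed

end Pool.Agent.KACR.H52
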