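import Mathlib
import Pool.Agent.KACR.Stmts

/-! Squad KACR, row PRE: the points over a countable set of levels. -/

namespace Pool.Agent.KACR.H52

open Set Filter Topology

theorem smooth_deriv' {L : ℝ} {k : ℝ → ℝ} (h : Gen L k) :
    Differentiable ℝ k ∧ Differentiable ℝ (deriv k) := by
  have h1 := contDiff_infty_iff_deriv.1 h.smooth
  exact ⟨h1.1, (contDiff_infty_iff_deriv.1 h1.2).1⟩

/-- the points of a level are isolated -/
theorem level_isolated {L : ℝ} {k : ℝ → ℝ} (h : Gen L k) (s : ℝ) :
    ∀ᶠ z in 𝓝[≠] s, k z ≠ k s := by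
  obtain ⟨hd1, hd2⟩ := smooth_deriv' h
  by_cases h0 : deriv k s = 0
  · have h1 : ∀ᶠ z in 𝓝[≠] s, deriv k z ≠ 0 :=
      (hd2 s).hasDerivAt.eventually_ne (h.nondeg s h0)
    rw [eventually_nhdsWithin_iff, Metric.eventually_nhds_iff] at h1
    obtain ⟨ε, hε, h2⟩ := h1
    rw [eventually_nhdsWithin_iff, Metric.eventually_nhds_iff]
    refine ⟨ε, hε, ?_⟩
    intro z hz hzs hk
    have hzs' : z ≠ s := hzs
    rw [Real.dist_eq, abs_lt] at hz
    rcases lt_or_gt_of_ne hzs' with hlt | hgt
    · obtain ⟨r, hr, hr0⟩ := exists_deriv_eq_zero hlt hd1.continuous.continuousOn hk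
      have h3 : dist r s < ε := by
        rw [Real.dist_eq, abs_lt]
        constructor
        · linarith [hr.1, hz.1]
        · linarith [hr.2]
      exact h2 h3 (ne_of_lt hr.2) hr0
    · obtain ⟨r, hr, hr0⟩ := exists_deriv_eq_zero hgt hd1.continuous.continuousOn hk.symm
      have h3 : dist r s < ε := by
        rw [Real.dist_eq, abs_lt]
        constructor
        · linarith [hr.1]
        · linarith [hr.2, hz.2]
      exact h2 h3 (ne_of_gt hr.1) hr0
  · exact (hd1 s).hasDerivAt.eventually_ne h0

theorem level_countable {L : ℝ} {k : ℝ → ℝ} (h : Gen L k) (c : ℝ) : {s | k s = c}.Countable := by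
  have h1 : DiscreteTopology {s | k s = c} := by
    rw [discreteTopology_subtype_iff]
    intro s hs
    have hs' : k s = c := hs
    have h2 := level_isolated h s
    rw [hs'] at h2
    rw [← empty_mem_iff_bot, mem_inf_principal]
    filter_upwards [h2] with z hz hz'
    exact hz hz'
  exact Set.countable_coe_iff.1 (countable_of_Lindelof_of_discrete (X := {s | k s = c}))

theorem pre : PreStmt := by
  intro L k h C hC
  have h1 : {s | k s ∈ C} = ⋃ c ∈ C, {s | k s = c} := by
    ext s
    simp
  rw [h1]
  exact hC.biUnion fun c _ => level_countable h c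

end Pool.Agent.KACR.H52
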