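import Mathlib
import Pool.Agent.KACR.Stmts

/-! Squad KACR, row RGP: near a regular point the partner moves with slope `± 1`. -/

namespace Pool.Agent.KACR.H52

open Set Filter Topology

/-- `y ^ 2 = x ^ 2`, equal signs -/
theorem eq_of_sq {x y : ℝ} (h : y ^ 2 = x ^ 2) (hxy : 0 < x * y) : y = x := by
  rcases sq_eq_sq_iff_eq_or_eq_neg.1 h with h1 | h1
  · exact h1
  · exfalso
    rw [h1] at hxy
    nlinarith [sq_nonneg x]

theorem rgp (hnea : NeaStmt) : RgpStmt := by
  intro L k k' h h' hall s₁ t₁ hst ε hε hslope hreg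
  have hk := contDiff_infty_iff_deriv.1 h.smooth
  have hk' := contDiff_infty_iff_deriv.1 h'.smooth
  have hdk : Continuous (deriv k) := hk.2.continuous
  have hdk' : Continuous (deriv k') := hk'.2.continuous
  have hε0 : ε ≠ 0 := by
    intro h0
    rw [h0] at hε
    norm_num at hε
  have hreg' : deriv k' t₁ ≠ 0 := by
    rw [hslope]
    exact mul_ne_zero hε0 hreg
  -- the local inverse of `k'`
  have hstrict : HasStrictDerivAt k' (deriv k' t₁) t₁ :=
    h'.smooth.contDiffAt.hasStrictDerivAt (by simp)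
  obtain ⟨e, he⟩ : ∃ e : OpenPartialHomeomorph ℝ ℝ,
      e = (hstrict.hasStrictFDerivAt_equiv hreg').toOpenPartialHomeomorph k' := ⟨_, rfl⟩
  have hecoe : (e : ℝ → ℝ) = k' := by
    rw [he]
    rfl
  have het : t₁ ∈ e.source := by
    rw [he]
    exact (hstrict.hasStrictFDerivAt_equiv hreg').mem_toOpenPartialHomeomorph_source
  -- a neighbourhood of `t₁`
  have hpos' : 0 < deriv k' t₁ * deriv k' t₁ := mul_self_pos.2 hreg'
  have hev : ∀ᶠ t in 𝓝 t₁, t ∈ e.source ∧ 0 < deriv k' t₁ * deriv k' t := by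
    have h0 : ∀ᶠ t in 𝓝 t₁, t ∈ e.source := e.open_source.mem_nhds het
    refine h0.and ?_
    exact (continuous_const.mul hdk').continuousAt.eventually (lt_mem_nhds hpos')
  obtain ⟨η, hη, hη2⟩ := Metric.eventually_nhds_iff.1 hev
  have hpos : 0 < deriv k s₁ * deriv k s₁ := mul_self_pos.2 hreg
  have hev2 : ∀ᶠ s in 𝓝 s₁, 0 < deriv k s₁ * deriv k s :=
    (continuous_const.mul hdk).continuousAt.eventually (lt_mem_nhds hpos)
  obtain ⟨δ₂, hδ₂, hδ2⟩ := Metric.eventually_nhds_iff.1 hev2
  obtain ⟨δ₁, hδ₁, hδ1⟩ := hnea L k k' h h' hall s₁ t₁ hst η hη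
  -- the partner function
  have key : ∀ s, |s - s₁| < min δ₁ δ₂ → k s ∈ e.target ∧ SameJet k k' s (e.symm (k s)) ∧
      deriv k' (e.symm (k s)) = ε * deriv k s := by
    intro s hs
    obtain ⟨t, ht, hj⟩ := hδ1 s (hs.trans_le (min_le_left _ _))
    obtain ⟨ht1, ht2⟩ := hη2 (y := t) (by rw [Real.dist_eq]; exact ht)
    have e1 : e t = k s := by
      rw [hecoe]
      exact hj.1
    have e2 : k s ∈ e.target := by
      rw [← e1]
      exact e.map_source ht1
    have e3 : e.symm (k s) = t := by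
      rw [← e1]
      exact e.left_inv ht1
    refine ⟨e2, by rw [e3]; exact hj, ?_⟩
    rw [e3]
    apply eq_of_sq
    · rw [hj.2.1, mul_pow, hε, one_mul]
    · have hs2 := hδ2 (y := s) (by rw [Real.dist_eq]; exact hs.trans_le (min_le_right _ _))
      rw [hslope] at ht2
      have h1 : 0 < (ε * deriv k s₁ * deriv k' t) * (deriv k s₁ * deriv k s) := mul_pos ht2 hs2
      have h2 : (ε * deriv k s₁ * deriv k' t) * (deriv k s₁ * deriv k s) =
          (ε * deriv k s * deriv k' t) * (deriv k s₁ * deriv k s₁) := by ring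
      rw [h2] at h1
      exact (mul_pos_iff_of_pos_right hpos).1 h1
  refine ⟨min δ₁ δ₂, lt_min hδ₁ hδ₂, ?_⟩
  have hder : ∀ s, |s - s₁| < min δ₁ δ₂ → HasDerivAt (fun s => e.symm (k s) - ε * s) 0 s := by
    intro s hs
    obtain ⟨h1, _, h3⟩ := key s hs
    have hs2 := hδ2 (y := s) (by rw [Real.dist_eq]; exact hs.trans_le (min_le_right _ _))
    have hks : deriv k s ≠ 0 := by
      intro h0
      rw [h0, mul_zero] at hs2
      exact lt_irrefl _ hs2
    have h4 : deriv k' (e.symm (k s)) ≠ 0 := by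
      rw [h3]
      exact mul_ne_zero hε0 hks
    have h5 : HasDerivAt e.symm (deriv k' (e.symm (k s)))⁻¹ (k s) := by
      refine e.hasDerivAt_symm h1 h4 ?_
      rw [hecoe]
      exact (hk'.1 _).hasDerivAt
    have h6 := h5.comp s (hk.1 s).hasDerivAt
    have h7 : HasDerivAt (fun s => ε * s) ε s := by
      have := (hasDerivAt_id s).const_mul ε
      rwa [mul_one] at this
    have h8 := h6.sub h7
    have h9 : (deriv k' (e.symm (k s)))⁻¹ * deriv k s - ε = 0 := by
      rw [h3]
      field_simp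
      rw [hε]
      ring
    rw [h9] at h8
    exact h8
  have hτ1 : e.symm (k s₁) = t₁ := by
    rw [← hst.1, ← hecoe]
    exact e.left_inv het
  intro s hs
  have hcst : e.symm (k s) - ε * s = e.symm (k s₁) - ε * s₁ := by
    have hopen : IsOpen (Metric.ball s₁ (min δ₁ δ₂)) := Metric.isOpen_ball
    have hconn : IsPreconnected (Metric.ball s₁ (min δ₁ δ₂)) :=
      (convex_ball s₁ (min δ₁ δ₂)).isPreconnected
    refine hopen.is_const_of_deriv_eq_zero (f := fun s => e.symm (k s) - ε * s) hconn ?_ ?_ ?_ ?_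
    · intro x hx
      rw [Metric.mem_ball, Real.dist_eq] at hx
      exact (hder x hx).differentiableAt.differentiableWithinAt
    · intro x hx
      rw [Metric.mem_ball, Real.dist_eq] at hx
      exact (hder x hx).deriv
    · rw [Metric.mem_ball, Real.dist_eq]
      exact hs
    · rw [Metric.mem_ball, dist_self]
      exact lt_min hδ₁ hδ₂
  rw [hτ1] at hcst
  have h10 : e.symm (k s) = t₁ + ε * (s - s₁) := by linarith
  rw [← h10]
  exact (key s hs).2.1

end Pool.Agent.KACR.H52
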